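import Mathlib

set_option autoImplicit false

namespace Pool.Agent.Zk65.US

open Filter Topology

theorem numeric : ∃ k₀ : ℕ, ∀ k : ℕ, k₀ ≤ k →
    ∃ l : ℕ, 1 ≤ l ∧ Real.log (Real.log k) ≤ l ∧ 2 ^ (12 * 2 ^ l + 16) * l * 16 ≤ k := by
  have hlog2 : Real.log 2 < 1 := by
    have := Real.log_two_lt_d9
    linarith
  have hlog2' : 0 < Real.log 2 := Real.log_pos (by norm_num)
  -- facts on a large real number
  have h1 : ∀ᶠ L : ℝ in atTop, L ^ Real.log 2 ≤ L / 100 := by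
    have h2 : Tendsto (fun L : ℝ => L ^ (-(1 - Real.log 2))) atTop (𝓝 0) :=
      tendsto_rpow_neg_atTop (by linarith)
    filter_upwards [h2.eventually (gt_mem_nhds (show (0 : ℝ) < 1 / 100 by norm_num)),
      eventually_gt_atTop 0] with L hL hL0
    have h3 : L ^ Real.log 2 = L ^ (-(1 - Real.log 2)) * L := by
      rw [← Real.rpow_add_one hL0.ne']
      congr 1
      ring
    rw [h3]
    nlinarith
  have h2 : ∀ᶠ L : ℝ in atTop, Real.log L ≤ L / 100 := by
    have h3 := Real.isLittleO_log_id_atTop.def (show (0 : ℝ) < 1 / 100 by norm_num)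
    filter_upwards [h3, eventually_gt_atTop 1] with L hL hL1
    rw [Real.norm_of_nonneg (Real.log_nonneg hL1.le), id, Real.norm_of_nonneg (by linarith)] at hL
    linarith
  have h3 : ∀ᶠ L : ℝ in atTop, L ^ Real.log 2 ≤ L / 100 ∧ Real.log L ≤ L / 100 ∧ 10000 ≤ L ∧
      0 < Real.log L := by
    filter_upwards [h1, h2, eventually_ge_atTop 10000] with L hL1 hL2 hL3
    exact ⟨hL1, hL2, hL3, Real.log_pos (by linarith)⟩
  have h4 : Tendsto (fun k : ℕ => Real.log (k : ℝ)) atTop atTop :=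
    Real.tendsto_log_atTop.comp tendsto_natCast_atTop_atTop
  have h5 := (h4.eventually h3).and (eventually_gt_atTop 0)
  rw [eventually_atTop] at h5
  obtain ⟨k₀, hk₀⟩ := h5
  refine ⟨k₀, fun k hk => ?_⟩
  obtain ⟨⟨hA, hB, hC, hD⟩, hk0⟩ := hk₀ k hk
  obtain ⟨L, hL⟩ : ∃ L, L = Real.log k := ⟨_, rfl⟩
  rw [← hL] at hA hB hC hD ⊢
  have hL0 : 0 < L := by linarith
  refine ⟨⌈Real.log L⌉₊, Nat.ceil_pos.2 hD, Nat.le_ceil _, ?_⟩
  obtain ⟨l, hl⟩ : ∃ l, l = ⌈Real.log L⌉₊ := ⟨_, rfl⟩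
  rw [← hl]
  have hl1 : 1 ≤ l := by
    rw [hl]
    exact Nat.ceil_pos.2 hD
  have hl2 : (l : ℝ) ≤ Real.log L + 1 := by
    rw [hl]
    exact (Nat.ceil_lt_add_one hD.le).le
  have hpow : (2 : ℝ) ^ l ≤ 2 * L ^ Real.log 2 := by
    have h6 : (2 : ℝ) ^ l = (2 : ℝ) ^ (l : ℝ) := (Real.rpow_natCast 2 l).symm
    rw [h6]
    calc (2 : ℝ) ^ (l : ℝ) ≤ (2 : ℝ) ^ (Real.log L + 1) :=
          Real.rpow_le_rpow_of_exponent_le (by norm_num) hl2
      _ = 2 * L ^ Real.log 2 := by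
          rw [Real.rpow_add (by norm_num), Real.rpow_one, Real.rpow_def_of_pos (by norm_num),
            Real.rpow_def_of_pos hL0]
          ring_nf
  have hl0 : (0 : ℝ) < l := by exact_mod_cast hl1
  have hpos : (0 : ℝ) < (2 : ℝ) ^ (12 * 2 ^ l + 16) * l * 16 := by positivity
  have hmain : Real.log ((2 : ℝ) ^ (12 * 2 ^ l + 16) * l * 16) ≤ L := by
    rw [Real.log_mul (by positivity) (by norm_num), Real.log_mul (by positivity) hl0.ne',
      Real.log_pow]
    push_cast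
    have h7 : Real.log l ≤ l := (Real.log_le_sub_one_of_pos hl0).trans (by linarith)
    have h8 : Real.log 16 ≤ 16 :=
      (Real.log_le_sub_one_of_pos (by norm_num)).trans (by norm_num)
    have h9 : (12 * (2 : ℝ) ^ l + 16) * Real.log 2 ≤ 12 * (2 : ℝ) ^ l + 16 := by
      have h10 : (0 : ℝ) ≤ 12 * (2 : ℝ) ^ l + 16 := by positivity
      nlinarith
    linarith
  have h6 : (2 : ℝ) ^ (12 * 2 ^ l + 16) * l * 16 ≤ (k : ℝ) := by
    rw [hL] at hmain
    exact (Real.log_le_log_iff hpos (by exact_mod_cast hk0)).1 hmain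
  exact_mod_cast h6

end Pool.Agent.Zk65.US
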